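import Pool.Agent.J6H6.JN.TLeaf
import Pool.Agent.J6H6.JN.Glue

set_option autoImplicit false

/-!
# Trees of alternating tangles

We consider links that are composed of alternating tangles (`Pool.Agent.Y479.LS.Tangle`) of both signs
along a tree of Conway spheres and Montesinos pieces; the double branched cover is glued, along a
tree, from double branched covers of alternating tangles, solid tori and Seifert pieces
`S¹ × (sphere with holes)`.

For an alternating tangle `T` let `volt = west⁻¹ east` and `curr = north⁻¹ south` be the two curves on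
the boundary torus of the double branched cover. `Contains T p q` says that `T` contains the rational
tangle `p / q`, and `swapT T` is `T` with exchanged colours (rotated by a quarter turn). If `T` contains
`p / q` and `swapT T` contains `p' / q'` then the slope `curr` has the lower bound `p / q` and the upper
bound `q' / p'` with respect to `volt`.

The intervals of slopes of composed tangles are computed as for Seifert pieces (`Tree.good`,
`Tree.bad`): `h` is the fibre (the curve `volt` of a sum of tangles), `v i` the curves `curr` of the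
summands, and their product `w` is the curve `curr` of the sum. At a summand which is an alternating
tangle (`Side.tangle`), the mirror image of an alternating tangle (`Side.mirror`), possibly with
`c` additional crossings of any sign, or a rational tangle (`Side.solid`), the bounds are used
including the end points; at other summands the fibre and the bounds are in the open interval.

The theorem: if two tangles of this class are glued to a link `L`, such that every slope is in the open
interval of one of the two sides, then the fundamental group of the double branched cover of `L` has no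
nontrivial homomorphism to a left-orderable group.
-/

universe u

namespace Pool.Agent.Results.MP_9ae2f3_gt.AlternatingTangleTrees

open Pool.Agent.J6H6.JN
open Pool.Agent.Y479.LS (Tangle)
open Pool.Agent.Results.MP_9ae2f3_gt.GluedKnotExteriors (NoOrders)

/-- A summand with the boundary curves `h`, `v`, the group `M`, and lower and upper bounds for the
slope of `v`. -/
inductive Side {G : Type} [Group G] : Subgroup G → G → G → ℚ → ℚ → Prop
  /-- rational tangles (solid tori) -/
  | solid {h v : G} {r : ℚ} : lev h v r = 1 → Side ⊥ h v r r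
  /-- alternating tangles, and `c` crossings -/
  | tangle (T : Tangle) (f : TG.Grp T →* G) (c : ℤ) {p q p' q' : ℕ} : Contains T p q →
      Contains (swapT T) p' q' → Side f.range (f (TG.volt T))
        (f (TG.curr T) * f (TG.volt T) ^ c) ((p : ℚ) / q + c) ((q' : ℚ) / p' + c)
  /-- mirror images of alternating tangles, and `c` crossings -/
  | mirror (T : Tangle) (f : TG.Grp T →* G) (c : ℤ) {p q p' q' : ℕ} : Contains T p q →
      Contains (swapT T) p' q' → Side f.range (f (TG.volt T))
        ((f (TG.curr T))⁻¹ * f (TG.volt T) ^ c) (-((q' : ℚ) / p') + c) (-((p : ℚ) / q) + c)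

/-- `Tree G x e`: the group `G` of the double branched cover of a composed tangle, and the ends
`x`, `e` of its interval of slopes. -/
inductive Tree : (G : Type) → [Group G] → G → G → Prop
  | tangle (T : Tangle) {p q p' q' : ℕ} : Contains T p q → Contains (swapT T) p' q' →
      (p : ℚ) / q < (q' : ℚ) / p' → Tree (TG.Grp T)
        (lev (TG.volt T) (TG.curr T) ((p : ℚ) / q)) (lev (TG.volt T) (TG.curr T) ((q' : ℚ) / p'))⁻¹
  | good {G : Type} [Group G] {n : ℕ} {N : Fin (n + 2) → Type} [∀ i, Group (N i)]
      {x e : ∀ i, N i} (js : ∀ i, N i →* G) {S : Set (Fin (n + 2))} {h : G} {v : Fin (n + 2) → G}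
      {M : Fin (n + 2) → Subgroup G} {r r' : Fin (n + 2) → ℚ} {s s' : ℚ}
      (trees : ∀ i ∈ S, Tree (N i) (x i) (e i)) (hM : ∀ i ∈ S, M i = (js i).range)
      (comm : ∀ i, Commute h (v i))
      (gen : Subgroup.closure ({h} ∪ Set.range v) ⊔ ⨆ i, M i = ⊤)
      (sides : ∀ i, i ∉ S → Side (M i) h (v i) (r i) (r' i))
      (glue : ∀ i ∈ S, InCone (js i (x i)) (js i (e i)) h ∧
        InCone (js i (x i)) (js i (e i)) (lev h (v i) (r i)) ∧
        InCone (js i (x i)) (js i (e i)) (lev h (v i) (r' i))⁻¹)
      (low : Jnn r s) (upp : Jnn (fun i => -r' i) (-s')) (lt : s < s') :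
      Tree G (lev h (List.ofFn v).prod s) (lev h (List.ofFn v).prod s')⁻¹
  | bad {G : Type} [Group G] {n : ℕ} {N : Fin (n + 2) → Type} [∀ i, Group (N i)]
      {x e : ∀ i, N i} (js : ∀ i, N i →* G) {S : Set (Fin (n + 2))} {h : G} {v : Fin (n + 2) → G}
      {M : Fin (n + 2) → Subgroup G} {r r' : Fin (n + 2) → ℚ} {s s' : ℚ}
      (trees : ∀ i ∈ S, Tree (N i) (x i) (e i)) (hM : ∀ i ∈ S, M i = (js i).range)
      (comm : ∀ i, Commute h (v i))
      (gen : Subgroup.closure ({h} ∪ Set.range v) ⊔ ⨆ i, M i = ⊤)
      (sides : ∀ i, i ∉ S → Side (M i) h (v i) (r i) (r' i))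
      (glue : ∀ i ∈ S, i ≠ 0 → InCone (js i (x i)) (js i (e i)) h ∧
        InCone (js i (x i)) (js i (e i)) (lev h (v i) (r i)) ∧
        InCone (js i (x i)) (js i (e i)) (lev h (v i) (r' i))⁻¹)
      (zero : 0 ∈ S ∧ r' 0 < r 0 ∧ InCone (js 0 (x 0)) (js 0 (e 0)) (lev h (v 0) (r 0)) ∧
        InCone (js 0 (x 0)) (js 0 (e 0)) (lev h (v 0) (r' 0)))
      (low : Jnn r s) (upp : Jnn (fun i => -r' i) (-s')) (lt : s' < s) :
      Tree G (lev h (List.ofFn v).prod s') (lev h (List.ofFn v).prod s)

section proof

theorem bd_solid {G : Type} [Group G] {h v : G} {r : ℚ} (h1 : lev h v r = 1) :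
    Bd.{u} ⊥ h v r r := by
  refine ⟨fun X _ ρ z _ => ?_, fun X _ ρ z _ => ?_, fun X _ ρ z hz => ⟨?_, ?_⟩⟩
  · rw [h1, map_one]; exact ⟨le_rfl, le_rfl⟩
  · rw [h1, map_one]; exact ⟨le_rfl, le_rfl⟩
  · refine of_lev_fix (h := ρ h) hz (r := r) ?_
    rw [← lev_map, h1, map_one]
    rfl
  · intro g hg
    rw [Subgroup.mem_bot.mp hg, map_one]
    rfl

theorem Side.bd {G : Type} [Group G] {M : Subgroup G} {h v : G} {r r' : ℚ}
    (hs : Side M h v r r') : Bd.{u} M h v r r' := by
  cases hs with
  | solid h1 => exact bd_solid h1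
  | tangle T f c h1 h2 =>
    exact ((bd_tangle h1 h2).map f).shift (TG.comm.map f) c
  | mirror T f c h1 h2 =>
    exact (((bd_tangle h1 h2).map f).mirror (TG.comm.map f)).shift (TG.comm.map f).inv_right c

theorem Tree.rigid {G : Type} [Group G] {x e : G} (h : Tree G x e) : Rigid.{u} G x e := by
  induction h with
  | tangle T h1 h2 lt => exact rigidT TG.comm (bd_tangle h1 h2) lt
  | good js trees hM comm gen sides glue low upp lt ih =>
    rename_i S _ _ _ _ _ _ _
    refine rigidA comm (fun i => ?_) low upp lt gen
    by_cases hi : i ∈ S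
    · rw [hM i hi]
      obtain ⟨g1, g2, g3⟩ := glue i hi
      exact bd_of_cone (ih i hi).tameE (js i) g1 g2 g3
    · exact (sides i hi).bd
  | bad js trees hM comm gen sides glue zero low upp lt ih =>
    rename_i S _ _ _ _ _ _ _
    obtain ⟨h0, hlt, z1, z2⟩ := zero
    refine rigidB comm (fun i hi0 => ?_) ?_ hlt low upp lt gen
    · by_cases hi : i ∈ S
      · rw [hM i hi]
        obtain ⟨g1, g2, g3⟩ := glue i hi hi0
        exact bd_of_cone (ih i hi).tameE (js i) g1 g2 g3
      · exact (sides i hi).bd
    · rw [hM 0 h0]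
      exact dir_of_cone (ih 0 h0).tameE (js 0) z1 z2

end proof

/-- **Trees of alternating tangles.** -/
theorem result (N₁ N₂ : Type) (G : Type u) [Group N₁] [Group N₂] [Group G] (j₁ : N₁ →* G)
    (j₂ : N₂ →* G) (x₁ e₁ : N₁) (x₂ e₂ : N₂) (h₁ : Tree N₁ x₁ e₁) (h₂ : Tree N₂ x₂ e₂)
    (gen : j₁.range ⊔ j₂.range = ⊤) (hx : InCone (j₂ x₂) (j₂ e₂) (j₁ x₁))
    (he : InCone (j₂ x₂) (j₂ e₂) (j₁ e₁)⁻¹) : NoOrders G :=
  glue_noOrders j₁ j₂ h₁.rigid h₂.rigid gen hx he

end Pool.Agent.Results.MP_9ae2f3_gt.AlternatingTangleTrees
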