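import Pool.Agent.J6H6.JN.TSum

set_option autoImplicit false

/-!
# Comparison of sums of alternating tangles with arbitrary Seifert manifolds over the sphere

Let `T 0, ..., T k` and `T'` be alternating tangle diagrams (`Pool.Agent.Y479.LS.Tangle`; the regions
at the boundary circle are `west`, `east` (white), `north`, `south` (black)). Put `T 0, ..., T k` and
`n` more crossings of the same sign below each other, so that all of them are adjacent to the same
white regions `west` and `east` (the sum `T 0 + ... + T k + n`), and close the sum with the mirror
image of `T'` to a link `L`, the closure of `T 0 + ... + T k + n - T'`. The group `TSum.Grp T T' n` is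
the fundamental group of the double branched cover of `L` (generators: the regions; relators: the
crossings, the identification of common regions, `west = north = 1`, and the commutators of the two
curves `west⁻¹ east`, `north⁻¹ south` on the boundary tori of the summands).

`Contains T p q` says that the diagram `T` contains the rational tangle `p / q` with the same white
regions `west` and `east`: rational tangles are built from walks (`1 / d`) by adding walks in series
(`p / q` becomes `p / (q + m p)`) and crossings in parallel (`p / q` becomes `(p + s q) / q`).
`swapT T'` is `T'` with exchanged colours.

Suppose that `T i` contains `p i / q i`, and that `swapT T'` contains `p' / q'` with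
`q' / p' ≤ n + 1`. If all tangles are rational, `T i = p i / q i` and `T' = q' / p'`, then the double
branched cover of `L` is the Seifert manifold `M(-1; p 0 / q 0, ..., p k / q k, n + 1 - q' / p')` with
base `S²`. By Jankins-Neumann and Naimi it admits a horizontal foliation if and only if there are
integers `0 < a < m` such that the invariants, in some order, are smaller than
`a / m, (m - a) / m, 1 / m, ..., 1 / m`.

The theorem: if this is not the case then for all `T i`, `T'` as above the fundamental group of the
double branched cover of `L` has no nontrivial homomorphism to a left-orderable group.
-/

namespace Pool.Agent.Results.MP_9ae2f3_gt.RationalTangleSums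

open Pool.Agent.Y479.LS Pool.Agent.J6H6.JN

/-- **Comparison with Seifert manifolds.** At least three invariants are positive, that is, `k ≥ 2`, or
`k ≥ 1` and `q' / p' < n + 1`. -/
theorem result (k n : ℕ) (T : Fin (k + 1) → Tangle) (T' : Tangle) (p q : Fin (k + 1) → ℕ)
    (p' q' : ℕ) (hT : ∀ i, Contains (T i) (p i) (q i)) (hT' : Contains (swapT T') p' q')
    (hn : q' ≤ (n + 1) * p') (hk : 2 ≤ k ∨ (1 ≤ k ∧ q' < (n + 1) * p'))
    (h : ¬ Realizable (TSum.invariant n p q p' q')) :
    (∀ (H : Type) [Group H], LeftOrderable H → ∀ (f : TSum.Grp T T' n →* H)
      (γ : TSum.Grp T T' n), f γ = 1) ∧ ¬ LeftOrderable (TSum.Grp T T' n) :=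
  TSum.not_leftOrderable fun _ _ _ _ _ _ D => h (D.realizable hT hT' hn hk)

end Pool.Agent.Results.MP_9ae2f3_gt.RationalTangleSums
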