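import Pool.Agent.J6H6.JN.Comp
import Pool.Agent.Results.MP_9ae2f3_gt.GluedKnotExteriors

set_option autoImplicit false

/-!
# Trees of Seifert pieces and exteriors of knots with Nie's property (D)

We consider closed 3-manifolds `Y` that are obtained, along a tree, by gluing Seifert pieces
`S¹ × (sphere with holes)`, solid tori and exteriors of knots with Nie's property (D) (for instance
torus knots, Berge-Gabai knots, closures of positive 1-bridge braids, the pretzel knot `P(-2,3,7)`).

A compact 3-manifold `N` of this kind with one boundary torus comes with two slopes `x`, `e`, the ends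
of an interval of slopes; the slopes in the open interval are the classes some positive multiple of
which is `A x + B e` with `A, B > 0` (`InCone`).

* Knots with property (D): the interval is `[2 g - 1, ∞]`, with ends `μ` and `μ ^ (2 g - 1) * l`.
* Solid tori: intervals of slopes which do not contain the meridian.
* Seifert pieces with fibre `h`, and boundary curves `v 0, ..., v (n + 1)` of a section, whose product
  `w = v 0 ⋯ v (n + 1)` is the curve on the open boundary torus. Solid tori with meridians
  `v i ^ q * h ^ (-p)`, `p / q = r i`, or manifolds `N i` of the class are glued to the other boundary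
  tori.
  - `good`: the fibre is in the open interval of all `N i`. Suppose that `v i ^ q * h ^ (-p)`,
    `p / q = r i`, and `v i ^ (-q) * h ^ p`, `p / q = r' i`, are in the open cone (so the slope `v i`
    has the lower bound `r i` and the upper bound `r' i`). Then the interval of the new manifold is
    given by the lower bound `s` and the upper bound `s'` for the slope of `w`, where
    `s` is a lower bound for the translation number of a product of homeomorphisms with the lower
    bounds `r i` according to the theorem of Jankins-Neumann and Naimi, `Jnn r s`, and `s'` is the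
    upper bound obtained from the `r' i` in the same way.
  - `bad`: the fibre is not in the interval of `N 0`, which consists of slopes between `r' 0` and
    `r 0`, `r' 0 < r 0`, and in the open intervals of all other `N i`. The interval of the new manifold
    consists of the slopes between the upper bound `s'` and the lower bound `s`, `s' < s`.

By Jankins-Neumann and Naimi and the gluing theorem of Hanselman, Rasmussen and Watson, with the optimal
choices of `r, r', s, s'` (or in the limit) these are the intervals of L-space slopes, if the knots are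
L-space knots with property (D).

The theorem: if two manifolds of the class are glued in such a way that every slope of the torus is in
the open interval of one of the two sides (the condition of Hanselman, Rasmussen and Watson for
L-spaces), then the fundamental group of the closed manifold has no nontrivial homomorphism to a
left-orderable group.
-/

universe u

namespace Pool.Agent.Results.MP_9ae2f3_gt.SeifertTrees

open Pool.Agent.J6H6.JN
open Pool.Agent.R649.BT (SCap TameE)
open Pool.Agent.Results.MP_9ae2f3_gt.GluedKnotExteriors (PropertyD NoOrders noOrders)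

/-- `Tree G x e`: the group `G` of a manifold of the class with one boundary torus, and the ends
`x`, `e` of its interval of slopes. -/
inductive Tree : (G : Type) → [Group G] → G → G → Prop
  /-- the exterior of a knot with property (D), with meridian `μ`, longitude `l`, `n = 2 g - 1` -/
  | knot {G : Type} [Group G] {μ l : G} {n : ℤ} : PropertyD G μ l n → Tree G μ (μ ^ n * l)
  /-- the solid torus with core `t` -/
  | solid {G : Type} [Group G] {t : G} {a b : ℕ} : 1 ≤ a → 1 ≤ b →
      Subgroup.closure {t} = ⊤ → Tree G (t ^ a) (t ^ b)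
  | good {G : Type} [Group G] {n : ℕ} {N : Fin (n + 2) → Type} [∀ i, Group (N i)]
      {x e : ∀ i, N i} (js : ∀ i, N i →* G) {S : Set (Fin (n + 2))} {h : G} {v : Fin (n + 2) → G}
      {r r' : Fin (n + 2) → ℚ} {s s' : ℚ}
      (sides : ∀ i ∈ S, Tree (N i) (x i) (e i))
      (comm : ∀ i, Commute h (v i))
      (gen : Subgroup.closure ({h} ∪ Set.range v) ⊔ ⨆ i, ⨆ (_ : i ∈ S), (js i).range = ⊤)
      (solid : ∀ i, i ∉ S → lev h (v i) (r i) = 1 ∧ r' i = r i)
      (glue : ∀ i ∈ S, InCone (js i (x i)) (js i (e i)) h ∧
        InCone (js i (x i)) (js i (e i)) (lev h (v i) (r i)) ∧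
        InCone (js i (x i)) (js i (e i)) (lev h (v i) (r' i))⁻¹)
      (low : Jnn r s) (upp : Jnn (fun i => -r' i) (-s')) (lt : s < s') :
      Tree G (lev h (List.ofFn v).prod s) (lev h (List.ofFn v).prod s')⁻¹
  | bad {G : Type} [Group G] {n : ℕ} {N : Fin (n + 2) → Type} [∀ i, Group (N i)]
      {x e : ∀ i, N i} (js : ∀ i, N i →* G) {S : Set (Fin (n + 2))} {h : G} {v : Fin (n + 2) → G}
      {r r' : Fin (n + 2) → ℚ} {s s' : ℚ}
      (sides : ∀ i ∈ S, Tree (N i) (x i) (e i))
      (comm : ∀ i, Commute h (v i))
      (gen : Subgroup.closure ({h} ∪ Set.range v) ⊔ ⨆ i, ⨆ (_ : i ∈ S), (js i).range = ⊤)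
      (solid : ∀ i, i ∉ S → lev h (v i) (r i) = 1 ∧ r' i = r i)
      (glue : ∀ i ∈ S, i ≠ 0 → InCone (js i (x i)) (js i (e i)) h ∧
        InCone (js i (x i)) (js i (e i)) (lev h (v i) (r i)) ∧
        InCone (js i (x i)) (js i (e i)) (lev h (v i) (r' i))⁻¹)
      (zero : 0 ∈ S ∧ r' 0 < r 0 ∧ InCone (js 0 (x 0)) (js 0 (e 0)) (lev h (v 0) (r 0)) ∧
        InCone (js 0 (x 0)) (js 0 (e 0)) (lev h (v 0) (r' 0)))
      (low : Jnn r s) (upp : Jnn (fun i => -r' i) (-s')) (lt : s' < s) :
      Tree G (lev h (List.ofFn v).prod s') (lev h (List.ofFn v).prod s)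

section proof

theorem bd_solid {G : Type} [Group G] {h v : G} {r r' : ℚ} (h1 : lev h v r = 1) (h2 : r' = r) :
    Bd.{u} ⊥ h v r r' := by
  subst h2
  refine ⟨fun X _ ρ z _ => ?_, fun X _ ρ z _ => ?_, fun X _ ρ z hz => ⟨?_, ?_⟩⟩
  · rw [h1, map_one]; exact ⟨le_rfl, le_rfl⟩
  · rw [h1, map_one]; exact ⟨le_rfl, le_rfl⟩
  · refine of_lev_fix (h := ρ h) hz (r := r') ?_
    rw [← lev_map, h1, map_one]
    rfl
  · intro g hg
    rw [Subgroup.mem_bot.mp hg, map_one]
    rfl

theorem Tree.rigid {G : Type} [Group G] {x e : G} (h : Tree G x e) : Rigid.{u} G x e := by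
  induction h with
  | @knot G _ μ l n hD =>
    exact Rigid.of_piece (((Commute.refl μ).zpow_right n).mul_right hD.comm) hD.piece
  | @solid G _ t a b ha hb ht =>
    have key : ∀ (X : Type u) [CompleteLinearOrder X] (ρ : G →* (X ≃o X)) (z : X), ρ t z = z →
        ∀ g, ρ g z = z := by
      intro X _ ρ z hz g
      have hle : (⊤ : Subgroup G) ≤ (MulAction.stabilizer (X ≃o X) z).comap ρ := by
        rw [← ht, Subgroup.closure_le]
        rintro _ rfl
        exact hz
      exact hle (Subgroup.mem_top g)
    refine ⟨(Commute.refl t).pow_pow a b, fun X _ ρ z h1 _ => ?_, fun X _ ρ hs g z => ?_⟩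
    · rw [map_pow, pow_fix_iff ha] at h1
      exact key X ρ z h1
    · rcases lt_trichotomy (ρ t z) z with k | k | k
      · have h1 := hs.down z (by rw [map_pow, pow_lt_iff ha]; exact k)
        rw [map_pow, lt_pow_iff hb] at h1
        exact absurd h1 (not_lt.mpr k.le)
      · exact key X ρ z k g
      · have h1 := hs.up z (by rw [map_pow, lt_pow_iff ha]; exact k)
        rw [map_pow, pow_lt_iff hb] at h1
        exact absurd h1 (not_lt.mpr k.le)
  | @good G _ n N _ x e js S h v r r' s s' sides comm gen solid glue low upp lt ih =>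
    refine rigidA comm (M := fun i => ⨆ (_ : i ∈ S), (js i).range) (fun i => ?_) low upp lt gen
    by_cases hi : i ∈ S
    · rw [iSup_pos hi]
      obtain ⟨g1, g2, g3⟩ := glue i hi
      exact bd_of_cone (ih i hi).tameE (js i) g1 g2 g3
    · rw [iSup_neg hi]
      obtain ⟨g1, g2⟩ := solid i hi
      exact bd_solid g1 g2
  | @bad G _ n N _ x e js S h v r r' s s' sides comm gen solid glue zero low upp lt ih =>
    obtain ⟨h0, hlt, z1, z2⟩ := zero
    refine rigidB comm (M := fun i => ⨆ (_ : i ∈ S), (js i).range) (fun i hi0 => ?_) ?_ hlt low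
      upp lt gen
    · by_cases hi : i ∈ S
      · rw [iSup_pos hi]
        obtain ⟨g1, g2, g3⟩ := glue i hi hi0
        exact bd_of_cone (ih i hi).tameE (js i) g1 g2 g3
      · rw [iSup_neg hi]
        obtain ⟨g1, g2⟩ := solid i hi
        exact bd_solid g1 g2
    · rw [iSup_pos h0]
      exact dir_of_cone (ih 0 h0).tameE (js 0) z1 z2

end proof

/-- **Trees of Seifert pieces and exteriors of knots with property (D).** -/
theorem result (N₁ N₂ : Type) (G : Type u) [Group N₁] [Group N₂] [Group G] (j₁ : N₁ →* G)
    (j₂ : N₂ →* G) (x₁ e₁ : N₁) (x₂ e₂ : N₂) (h₁ : Tree N₁ x₁ e₁) (h₂ : Tree N₂ x₂ e₂)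
    (gen : j₁.range ⊔ j₂.range = ⊤) (hx : InCone (j₂ x₂) (j₂ e₂) (j₁ x₁))
    (he : InCone (j₂ x₂) (j₂ e₂) (j₁ e₁)⁻¹) : NoOrders G := by
  refine noOrders fun X _ ρ g p => ?_
  have T₂ := (h₂.rigid.{u}).tameE
  have R₁ := h₁.rigid.{u}
  have d := dir_of_cone T₂ j₂ hx he X ρ
  have hs : SCap ((ρ.comp j₁) x₁) ((ρ.comp j₁) e₁) := by
    refine ⟨fun v => ?_, fun v hv => ?_, fun v hv => ?_, fun v hv => ?_⟩
    · rw [← RelIso.mul_apply, ← RelIso.mul_apply, ← map_mul, ← map_mul, R₁.comm.eq]
    · rcases d v with k | k | k
      · have := k.2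
        rw [map_inv, lt_inv_iff] at this
        exact this
      · exact absurd k.1 (not_lt.mpr (le_of_lt hv))
      · exact absurd k.1 (ne_of_gt hv)
    · rcases d v with k | k | k
      · exact absurd k.1 (not_lt.mpr (le_of_lt hv))
      · have := k.2
        rw [map_inv, inv_lt_iff] at this
        exact this
      · exact absurd k.1 (ne_of_lt hv)
    · rcases d v with k | k | k
      · exact absurd hv (ne_of_gt k.1)
      · exact absurd hv (ne_of_lt k.1)
      · have := k.2.1
        rw [map_inv, inv_fix_iff] at this
        exact this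
  have t1 : ∀ g z, ρ (j₁ g) z = z := R₁.no X (ρ.comp j₁) hs
  have t2 : ∀ g ∈ j₂.range, ρ g p = p := by
    rcases d p with k | k | k
    · exact absurd (t1 x₁ p) k.1.ne'
    · exact absurd (t1 x₁ p) k.1.ne
    · exact k.2.2
  have hle : (⊤ : Subgroup G) ≤ (MulAction.stabilizer (X ≃o X) p).comap ρ := by
    rw [← gen, sup_le_iff]
    constructor
    · rintro _ ⟨g, rfl⟩; exact t1 g p
    · intro g hg; exact t2 g hg
  exact hle (Subgroup.mem_top g)

end Pool.Agent.Results.MP_9ae2f3_gt.SeifertTrees
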