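import Pool.Agent.J6H6.JN.Alt

set_option autoImplicit false

/-!
# Splicing alternating links

Let `D` be a connected alternating link diagram on the sphere. The arc at the crossing `c` that joins
the two strands lifts to a closed curve in the double branched cover. The exterior of these curves has
one boundary torus for each crossing; it covers the boundary sphere of a ball around the crossing, and
carries the curves `curr c = b₂⁻¹ b₁` and `volt c = w₁⁻¹ w₂`, where `w₁, b₁, w₂, b₂` are the white and
black regions at `c` in counterclockwise order (the Dehn presentation of the fundamental group; the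
relation of a crossing is `curr c = volt c`). We splice: instead of the double covers of the balls at
the crossings, other manifolds with one boundary torus are glued to some of these tori.

Such a manifold comes with two slopes `a`, `b`, the ends of a closed interval of slopes; the slopes in
the interval are the classes some positive multiple of which is `A a + B b`, where `A, B ≥ 0` are not
both `0` (`InCl`). We use

* `knot`: exteriors of knots with Nie's property (D) (torus knots, closures of positive 1-bridge
  braids, Berge-Gabai knots, the pretzel knot `P(-2,3,7)`), with the closed subintervals of the open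
  interval of slopes `(2 g - 1, ∞)`;
* `solid`: solid tori, with closed intervals of slopes that do not contain the meridian;
* `diagram`: alternating diagrams from which one crossing `c₀` is removed (not a nugatory one), and with
  manifolds `N c` of the class glued in at the crossings `c ∈ S`, such that the slopes
  `A curr c + B volt c`, `A, B ≥ 0`, are in the interval of `N c`; the new interval consists of the
  slopes `A curr c₀ - B volt c₀`, `A, B ≥ 0` (the slopes of the alternating fillings). For example,
  the diagrams of the torus links `T(2, k)` give Seifert pieces `S¹ × (sphere with k holes)`;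
* `ring`: circle bundles with orientable total space over the Möbius band with holes, with fibre `h`
  and `a h a⁻¹ = h⁻¹`; manifolds `N i` of the class are glued in at the holes, such that the fibre is
  in the interval of each `N i`. The new interval is an arbitrary closed interval of slopes which does
  not contain the fibre. Without holes this is the twisted `I`-bundle over the Klein bottle.

The slopes in these intervals are L-space slopes, by the theorem of Ozsváth and Szabó on alternating
links, the surgery theorem for L-space knots and the gluing theorem of Hanselman, Rasmussen and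
Watson.

The theorem: (1) if two manifolds of the class are glued such that every slope of the torus is in the
interval of one of the two sides, then the fundamental group has no nontrivial homomorphism to a
left-orderable group; (2) the same holds for the splices of the double branched cover of an
alternating link with manifolds `N c` of the class at an arbitrary set of crossings, where the slopes
`A curr c + B volt c`, `A, B ≥ 0`, are in the interval of `N c`.
-/

universe u

namespace Pool.Agent.Results.MP_9ae2f3_gt.SplicedAlternatingLinks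

open Pool.Agent.J6H6.JN
open Pool.Agent.R649.BT (SCap TameE)
open Pool.Agent.Results.MP_9ae2f3_gt.GluedKnotExteriors (PropertyD NoOrders noOrders)

/-- `Spliced G a b`: the group `G` of a manifold of the class with one boundary torus, and the ends
`a`, `b` of a closed interval of slopes. -/
inductive Spliced : (G : Type) → [Group G] → G → G → Prop
  /-- the exterior of a knot with property (D), with meridian `μ`, longitude `l`, `n = 2 g - 1` -/
  | knot {G : Type} [Group G] {μ l a b : G} {n : ℤ} : PropertyD G μ l n →
      InCone μ (μ ^ n * l) a → InCone μ (μ ^ n * l) b → Spliced G a b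
  /-- the solid torus with core `t` -/
  | solid {G : Type} [Group G] {t : G} {i j : ℕ} : 1 ≤ i → 1 ≤ j →
      Subgroup.closure {t} = ⊤ → Spliced G (t ^ i) (t ^ j)
  /-- the same slopes with the opposite orientation -/
  | inv {G : Type} [Group G] {a b : G} : Spliced G a b → Spliced G a⁻¹ b⁻¹
  /-- a closed subinterval -/
  | sub {G : Type} [Group G] {a b a' b' : G} : Spliced G a b → InCl a b a' → InCl a b b' →
      Spliced G a' b'
  /-- an alternating diagram without the crossing `c₀`, with splices at the crossings in `S` -/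
  | diagram {G : Type} [Group G] (D : Diagram) {w : D.W → G} {b : D.B → G} {c₀ : D.C}
      {S : Set D.C} {N : D.C → Type} [∀ c, Group (N c)] {x e : ∀ c, N c} (js : ∀ c, N c →* G)
      (hw : ∃ v, w v = 1) (hb : ∃ v, b v = 1) (h₀ : c₀ ∉ S) (ess : D.Essential c₀)
      (crossing : ∀ c, c ≠ c₀ → c ∉ S → D.curr b c = D.volt w c)
      (pieces : ∀ c ∈ S, Spliced (N c) (x c) (e c))
      (glue : ∀ c ∈ S, InCl (js c (x c)) (js c (e c)) (D.curr b c) ∧
        InCl (js c (x c)) (js c (e c)) (D.volt w c))
      (gen : Subgroup.closure (Set.range w ∪ Set.range b) ⊔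
        ⨆ c, ⨆ (_ : c ∈ S), (js c).range = ⊤) :
      Spliced G (D.curr b c₀) (D.volt w c₀)⁻¹
  /-- a circle bundle over the Möbius band with holes, with manifolds glued in at the holes -/
  | ring {G : Type} [Group G] {n : ℕ} {N : Fin n → Type} [∀ i, Group (N i)] {x e : ∀ i, N i}
      (js : ∀ i, N i →* G) {h a : G} {v : Fin n → G} (m : ℕ)
      (pieces : ∀ i, Spliced (N i) (x i) (e i))
      (comm : ∀ i, Commute h (v i)) (conj : a * h * a⁻¹ = h⁻¹)
      (glue : ∀ i, InCl (js i (x i)) (js i (e i)) h ∧ v i ∈ (js i).range)
      (gen : Subgroup.closure ({h, a} ∪ Set.range v) ⊔ ⨆ i, (js i).range = ⊤) :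
      Spliced G ((List.ofFn v).prod * a ^ 2 * h ^ (-(m : ℤ)))
        ((List.ofFn v).prod * a ^ 2 * h ^ (m : ℤ))

section proof

theorem dir_solid {G : Type} [Group G] {t : G} {i j : ℕ} (hi : 1 ≤ i) (hj : 1 ≤ j)
    (ht : Subgroup.closure {t} = ⊤) : Dir.{u} (⊤ : Subgroup G) (t ^ i) (t ^ j) := by
  intro X _ ρ z
  rw [map_pow, map_pow]
  rcases lt_trichotomy (ρ t z) z with k | k | k
  · exact Or.inr (Or.inl ⟨(pow_lt_iff hi).mpr k, (pow_lt_iff hj).mpr k⟩)
  · refine Or.inr (Or.inr ⟨(pow_fix_iff hi).mpr k, (pow_fix_iff hj).mpr k, fun g _ => ?_⟩)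
    have hle : (⊤ : Subgroup G) ≤ (MulAction.stabilizer (X ≃o X) z).comap ρ := by
      rw [← ht, Subgroup.closure_le]
      rintro _ rfl
      exact k
    exact hle (Subgroup.mem_top g)
  · exact Or.inl ⟨(lt_pow_iff hi).mpr k, (lt_pow_iff hj).mpr k⟩

theorem dir_crossing {G : Type*} [Group G] {D : Diagram} {w : D.W → G} {b : D.B → G}
    {S : Set D.C} {N : D.C → Type} [∀ c, Group (N c)] {x e : ∀ c, N c} {js : ∀ c, N c →* G}
    {c : D.C} (crossing : c ∉ S → D.curr b c = D.volt w c)
    (dir : c ∈ S → Dir.{u} (⊤ : Subgroup (N c)) (x c) (e c))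
    (glue : c ∈ S → InCl (js c (x c)) (js c (e c)) (D.curr b c) ∧
      InCl (js c (x c)) (js c (e c)) (D.volt w c)) :
    Dir.{u} (⨆ (_ : c ∈ S), (js c).range) (D.curr b c) (D.volt w c) := by
  by_cases hc : c ∈ S
  · rw [iSup_pos hc]
    exact ((dir hc).mapR (js c)).sub (glue hc).1 (glue hc).2
  · rw [iSup_neg hc, crossing hc]
    exact dir_same

/-- Every slope of the interval moves all points in the same direction, and its fixed points are
fixed by the whole group. -/
theorem Spliced.dir {G : Type} [Group G] {a b : G} (h : Spliced G a b) :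
    Dir.{u} (⊤ : Subgroup G) a b := by
  induction h with
  | @knot G _ μ l a b n hD ha hb =>
    exact (Rigid.of_piece (((Commute.refl μ).zpow_right n).mul_right hD.comm) hD.piece).dir ha hb
  | solid hi hj ht => exact dir_solid hi hj ht
  | inv _ ih => exact ih.inv
  | sub _ h1 h2 ih => exact ih.sub h1 h2
  | diagram D js hw hb h₀ ess crossing pieces glue gen ih =>
    rename_i c₀ S N _ x e
    exact dirD D (M := fun c => ⨆ (_ : c ∈ S), (js c).range) hw hb (iSup_neg h₀) ess
      (fun c hc => dir_crossing (crossing c hc) (fun h => ih c h) (glue c)) gen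
  | ring js m pieces comm conj glue gen ih =>
    refine dirR (M := fun i => (js i).range) m comm conj (fun i X _ ρ z hz => ?_) gen
    obtain ⟨g1, g, hg⟩ := glue i
    have h1 : ∀ g ∈ (js i).range, ρ g z = z := by
      rcases ((ih i).mapR (js i)).sub g1 g1 X ρ z with h | h | h
      · exact absurd hz h.1.ne'
      · exact absurd hz h.1.ne
      · exact h.2.2
    exact ⟨h1 _ ⟨g, hg⟩, h1⟩

theorem two {N₁ N₂ : Type} {G : Type u} [Group N₁] [Group N₂] [Group G] (j₁ : N₁ →* G)
    (j₂ : N₂ →* G) {a₁ b₁ : N₁} {a₂ b₂ : N₂} (h₁ : Spliced N₁ a₁ b₁) (h₂ : Spliced N₂ a₂ b₂)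
    (gen : j₁.range ⊔ j₂.range = ⊤) (ha : InCl (j₂ a₂) (j₂ b₂) (j₁ a₁))
    (hb : InCl (j₂ a₂) (j₂ b₂) (j₁ b₁)⁻¹) : NoOrders G := by
  refine noOrders fun X _ ρ g p => ?_
  have d₁ := (h₁.dir.{u}.mapR j₁) X ρ p
  have d₂ := ((h₂.dir.{u}.mapR j₂).sub ha hb) X ρ p
  rw [map_inv] at d₂
  have key : (∀ g ∈ j₁.range, ρ g p = p) ∧ ∀ g ∈ j₂.range, ρ g p = p := by
    rcases d₁ with k | k | k
    · rcases d₂ with m | m | m
      · exact absurd (lt_inv_iff.mp m.2) (not_lt.mpr k.2.le)
      · exact absurd m.1 (not_lt.mpr k.1.le)
      · exact absurd m.1 k.1.ne'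
    · rcases d₂ with m | m | m
      · exact absurd m.1 (not_lt.mpr k.1.le)
      · exact absurd (inv_lt_iff.mp m.2) (not_lt.mpr k.2.le)
      · exact absurd m.1 k.1.ne
    · rcases d₂ with m | m | m
      · exact absurd k.1 m.1.ne'
      · exact absurd k.1 m.1.ne
      · exact ⟨k.2.2, m.2.2⟩
  have hle : (⊤ : Subgroup G) ≤ (MulAction.stabilizer (X ≃o X) p).comap ρ := by
    rw [← gen, sup_le_iff]
    exact ⟨fun g hg => key.1 g hg, fun g hg => key.2 g hg⟩
  exact hle (Subgroup.mem_top g)

end proof

/-- **Splices of alternating links.** -/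
theorem result :
    (∀ (N₁ N₂ : Type) (G : Type u) [Group N₁] [Group N₂] [Group G] (j₁ : N₁ →* G)
      (j₂ : N₂ →* G) (a₁ b₁ : N₁) (a₂ b₂ : N₂), Spliced N₁ a₁ b₁ → Spliced N₂ a₂ b₂ →
      j₁.range ⊔ j₂.range = ⊤ → InCl (j₂ a₂) (j₂ b₂) (j₁ a₁) →
      InCl (j₂ a₂) (j₂ b₂) (j₁ b₁)⁻¹ → NoOrders G) ∧
    ∀ (D : Diagram) (G : Type u) [Group G] (w : D.W → G) (b : D.B → G) (S : Set D.C)
      (N : D.C → Type) [∀ c, Group (N c)] (x e : ∀ c, N c) (js : ∀ c, N c →* G),
      (∃ v, w v = 1) → (∃ v, b v = 1) → (∀ c, c ∉ S → D.curr b c = D.volt w c) →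
      (∀ c ∈ S, Spliced (N c) (x c) (e c)) →
      (∀ c ∈ S, InCl (js c (x c)) (js c (e c)) (D.curr b c) ∧
        InCl (js c (x c)) (js c (e c)) (D.volt w c)) →
      Subgroup.closure (Set.range w ∪ Set.range b) ⊔ ⨆ c, ⨆ (_ : c ∈ S), (js c).range = ⊤ →
      NoOrders G := by
  refine ⟨fun N₁ N₂ G _ _ _ j₁ j₂ a₁ b₁ a₂ b₂ h₁ h₂ gen ha hb =>
    two j₁ j₂ h₁ h₂ gen ha hb, ?_⟩
  intro D G _ w b S N _ x e js hw hb crossing pieces glue gen
  refine noOrders fun X _ ρ g p => ?_
  exact D.fixed hw hb (M := fun c => ⨆ (_ : c ∈ S), (js c).range) gen ρ p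
    (fun c => dir_crossing (crossing c) (fun h => (pieces c h).dir) (glue c) X ρ p) g

end Pool.Agent.Results.MP_9ae2f3_gt.SplicedAlternatingLinks
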